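import Pool.Agent.W703.GP.Stm3

set_option autoImplicit false

/-!
# Lower bound for the first Dirichlet eigenvalue from a strip
-/

namespace Pool.Agent.W616.GP

open MeasureTheory Set Filter Topology Complex
open scoped Real ComplexConjugate
open Pool.Agent.W703.GP

/-- one-dimensional Poincaré inequality -/
theorem poin1 (h : ℝ → ℝ) (hh : ContDiff ℝ 1 h) (c W : ℝ) (hW : 0 < W)
    (hs : ∀ x, h x ≠ 0 → c ≤ x ∧ x ≤ c + W) :
    ∫ x in c..(c + W), h x ^ 2 ≤ W ^ 2 * ∫ x in c..(c + W), deriv h x ^ 2 := by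
  have hcont : Continuous h := hh.continuous
  have hd : Continuous (deriv h) := hh.continuous_deriv le_rfl
  have hc0 : h c = 0 := by
    by_contra hne
    have h1 : ∀ᶠ x in 𝓝 c, h x ≠ 0 := hcont.continuousAt.eventually_ne hne
    have h2 : ∀ᶠ x in 𝓝[<] c, h x ≠ 0 := h1.filter_mono nhdsWithin_le_nhds
    have h3 : ∀ᶠ x in 𝓝[<] c, x < c := self_mem_nhdsWithin
    obtain ⟨x, hx1, hx2⟩ := (h2.and h3).exists
    exact absurd (hs x hx1).1 (not_le.mpr hx2)
  set I : ℝ := ∫ x in c..(c + W), deriv h x ^ 2 with hI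
  have key : ∀ x ∈ Icc c (c + W), h x ^ 2 ≤ W * I := by
    intro x hx
    have hft : ∫ t in c..x, deriv h t = h x := by
      rw [intervalIntegral.integral_deriv_eq_sub
        (fun y _ => (hh.differentiable one_ne_zero) y) (hd.intervalIntegrable _ _), hc0, sub_zero]
    -- Cauchy--Schwarz by completing the square
    have hL : 0 ≤ x - c := sub_nonneg.mpr hx.1
    set J : ℝ := ∫ t in c..x, deriv h t ^ 2 with hJ
    have hJI : J ≤ I := by
      rw [hJ, hI]
      have i1 : IntervalIntegrable (fun t => deriv h t ^ 2) volume c x :=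
        (hd.pow 2).intervalIntegrable c x
      have i2 : IntervalIntegrable (fun t => deriv h t ^ 2) volume x (c + W) :=
        (hd.pow 2).intervalIntegrable x (c + W)
      rw [← intervalIntegral.integral_add_adjacent_intervals i1 i2]
      have : 0 ≤ ∫ t in x..(c + W), deriv h t ^ 2 :=
        intervalIntegral.integral_nonneg hx.2 (fun t _ => sq_nonneg _)
      linarith
    have hJ0 : 0 ≤ J := intervalIntegral.integral_nonneg hx.1 (fun t _ => sq_nonneg _)
    have hCS : h x ^ 2 ≤ (x - c) * J := by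
      rcases eq_or_lt_of_le hL with h0 | hpos
      · have : x = c := by linarith
        rw [this, hc0]; simp
      · set m : ℝ := h x / (x - c) with hm
        have h1 : 0 ≤ ∫ t in c..x, (deriv h t - m) ^ 2 :=
          intervalIntegral.integral_nonneg hx.1 (fun t _ => sq_nonneg _)
        have h2 : ∫ t in c..x, (deriv h t - m) ^ 2 = J - 2 * m * h x + m ^ 2 * (x - c) := by
          have : ∀ t, (deriv h t - m) ^ 2 = deriv h t ^ 2 - 2 * m * deriv h t + m ^ 2 := by
            intro t; ring
          simp_rw [this]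
          rw [intervalIntegral.integral_add, intervalIntegral.integral_sub,
            intervalIntegral.integral_const_mul, hft, intervalIntegral.integral_const]
          · simp only [smul_eq_mul]; ring
          · exact (hd.pow 2).intervalIntegrable _ _
          · exact (hd.const_mul _).intervalIntegrable _ _ 
          · exact ((hd.pow 2).sub (hd.const_mul _)).intervalIntegrable _ _
          · exact continuous_const.intervalIntegrable _ _
        rw [h2] at h1
        have h3 : m * (x - c) = h x := by rw [hm]; field_simp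
        have h4 : J - m ^ 2 * (x - c) ≥ 0 := by
          have : 2 * m * h x = 2 * m ^ 2 * (x - c) := by rw [← h3]; ring
          nlinarith
        have h5 : (x - c) * J - (m * (x - c)) ^ 2 ≥ 0 := by
          have := mul_nonneg hL h4
          nlinarith
        rw [h3] at h5
        linarith
    calc h x ^ 2 ≤ (x - c) * J := hCS
      _ ≤ W * J := mul_le_mul_of_nonneg_right (by linarith [hx.2]) hJ0
      _ ≤ W * I := mul_le_mul_of_nonneg_left hJI hW.le
  calc ∫ x in c..(c + W), h x ^ 2 ≤ ∫ x in c..(c + W), W * I := by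
        apply intervalIntegral.integral_mono_on (by linarith)
          ((hcont.pow 2).intervalIntegrable _ _) (continuous_const.intervalIntegrable _ _) key
    _ = W ^ 2 * I := by
        rw [intervalIntegral.integral_const]; simp only [smul_eq_mul]; ring

/-- Poincaré inequality on the whole line for functions supported in an interval -/
theorem poin2 (h : ℝ → ℝ) (hh : ContDiff ℝ 1 h) (c W : ℝ) (hW : 0 < W)
    (hs : ∀ x, h x ≠ 0 → c ≤ x ∧ x ≤ c + W) :
    ∫ x, h x ^ 2 ≤ W ^ 2 * ∫ x, deriv h x ^ 2 := by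
  have hd : Continuous (deriv h) := hh.continuous_deriv le_rfl
  have e1 : ∫ x, h x ^ 2 = ∫ x in c..(c + W), h x ^ 2 := by
    rw [intervalIntegral.integral_of_le (by linarith), ← integral_Icc_eq_integral_Ioc]
    symm
    apply setIntegral_eq_integral_of_forall_compl_eq_zero
    intro x hx
    by_contra hne
    have : h x ≠ 0 := fun h0 => hne (by rw [h0]; simp)
    exact hx (hs x this)
  have e2 : ∫ x, deriv h x ^ 2 = ∫ x in c..(c + W), deriv h x ^ 2 := by
    rw [intervalIntegral.integral_of_le (by linarith), ← integral_Icc_eq_integral_Ioc]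
    symm
    apply setIntegral_eq_integral_of_forall_compl_eq_zero
    intro x hx
    have hnot : (Icc c (c + W))ᶜ ∈ 𝓝 x := isClosed_Icc.isOpen_compl.mem_nhds hx
    have : h =ᶠ[𝓝 x] fun _ => (0 : ℝ) := by
      filter_upwards [hnot] with y hy
      by_contra hne
      exact hy (hs y hne)
    rw [this.deriv_eq]; simp
  rw [e1, e2]
  exact poin1 h hh c W hW hs

/-- Fubini in rotated coordinates -/
theorem rot_int (F : ℂ → ℝ) (hF : Continuous F) (hc : HasCompactSupport F) (u : ℂ)
    (hu : ‖u‖ = 1) :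
    ∫ z, F z = ∫ y : ℝ, ∫ x : ℝ, F (u * (x + y * I)) ∧
      Integrable (fun y : ℝ => ∫ x : ℝ, F (u * (x + y * I))) := by
  have hu' : u ∈ Submonoid.unitSphere ℂ := by
    simp [Submonoid.unitSphere, hu]
  let e : ℂ ≃ₗᵢ[ℝ] ℂ := rotation ⟨u, hu'⟩
  have he : ∀ w, e w = u * w := fun w => rotation_apply _ _
  let m : ℝ × ℝ ≃ᵐ ℂ := Complex.measurableEquivRealProd.symm.trans e.toHomeomorph.toMeasurableEquiv
  have hm : ∀ p, m p = u * (p.1 + p.2 * I) := by
    intro p
    have h1 : m p = e (Complex.measurableEquivRealProd.symm p) := rfl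
    rw [h1, he]
    congr 1
    apply Complex.ext <;> simp [Complex.measurableEquivRealProd]
  have hmp : MeasurePreserving m := by
    have h1 := Complex.volume_preserving_equiv_real_prod.symm
    have h2 := e.measurePreserving
    exact h2.comp h1
  have hint : Integrable F := hF.integrable_of_hasCompactSupport hc
  have h1 : ∫ z, F z = ∫ p : ℝ × ℝ, F (m p) := (hmp.integral_comp' F).symm
  have hint2 : Integrable (fun p : ℝ × ℝ => F (m p)) := (hmp.integrable_comp_emb
    m.measurableEmbedding).mpr hint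
  have hfun : (fun p : ℝ × ℝ => F (m p)) = fun p : ℝ × ℝ => F (u * (p.1 + p.2 * I)) := by
    funext p; rw [hm]
  rw [hfun] at h1 hint2
  constructor
  · rw [h1]
    exact integral_prod_symm (μ := (volume : Measure ℝ)) (ν := (volume : Measure ℝ)) _ hint2
  · exact hint2.integral_prod_right

/-- Poincaré inequality for a function supported in a strip -/
theorem strip (Ω : Set ℂ) (W c : ℝ) (u : ℂ) (hW : 0 < W) (hu : ‖u‖ = 1)
    (hs : ∀ z ∈ Ω, c ≤ (conj u * z).re ∧ (conj u * z).re ≤ c + W) (f : ℂ → ℝ) (hf : f ∈ C1c Ω) :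
    mass f ≤ W ^ 2 * dir f := by
  obtain ⟨hf1, hf2, hf3⟩ := hf
  have huu : conj u * u = 1 := by
    rw [← Complex.normSq_eq_conj_mul_self, Complex.normSq_eq_norm_sq, hu]; simp
  have hcf : Continuous f := hf1.continuous
  have hcd : Continuous (fderiv ℝ f) := hf1.continuous_fderiv one_ne_zero
  have hF1 : Continuous (fun z => f z ^ 2) := hcf.pow 2
  have hF2 : Continuous (fun z => ‖fderiv ℝ f z‖ ^ 2) := hcd.norm.pow 2
  have hS1 : HasCompactSupport (fun z => f z ^ 2) :=
    hf2.comp_left (g := fun t : ℝ => t ^ 2) (by simp)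
  have hS2 : HasCompactSupport (fun z => ‖fderiv ℝ f z‖ ^ 2) :=
    (hf2.fderiv (𝕜 := ℝ)).comp_left (g := fun t => ‖t‖ ^ 2) (by simp)
  obtain ⟨a1, b1⟩ := rot_int _ hF1 hS1 u hu
  obtain ⟨a2, b2⟩ := rot_int _ hF2 hS2 u hu
  unfold mass dir
  rw [a1, a2, ← integral_const_mul]
  apply integral_mono b1 (b2.const_mul _)
  intro y
  have hline : ContDiff ℝ 1 (fun x : ℝ => f (u * ((x : ℂ) + y * I))) := by
    apply hf1.comp
    apply contDiff_const.mul
    exact (Complex.ofRealCLM.contDiff).add contDiff_const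
  have hder : ∀ x : ℝ, deriv (fun x : ℝ => f (u * ((x : ℂ) + y * I))) x
      = fderiv ℝ f (u * ((x : ℂ) + y * I)) u := by
    intro x
    have h1 : HasDerivAt (fun x : ℝ => u * ((x : ℂ) + y * I)) u x := by
      have := ((Complex.ofRealCLM.hasDerivAt (x := x)).add_const (y * I)).const_mul u
      simpa using this
    have h2 : HasFDerivAt f (fderiv ℝ f (u * ((x : ℂ) + y * I))) (u * ((x : ℂ) + y * I)) :=
      ((hf1.differentiable one_ne_zero) _).hasFDerivAt
    exact (h2.comp_hasDerivAt x h1).deriv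
  have hsupp : ∀ x : ℝ, f (u * ((x : ℂ) + y * I)) ≠ 0 → c ≤ x ∧ x ≤ c + W := by
    intro x hx
    have hmem : u * ((x : ℂ) + y * I) ∈ Ω := hf3 (subset_tsupport _ hx)
    have := hs _ hmem
    rw [← mul_assoc, huu, one_mul] at this
    simpa using this
  have hp := poin2 _ hline c W hW hsupp
  refine hp.trans ?_
  simp only
  apply mul_le_mul_of_nonneg_left _ (sq_nonneg W)
  have hcomp : ∀ (F : ℂ → ℝ), Continuous F → HasCompactSupport F →
      Integrable (fun x : ℝ => F (u * ((x : ℂ) + y * I))) := by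
    intro F hF hc
    apply Continuous.integrable_of_hasCompactSupport
    · fun_prop
    · apply hc.comp_isClosedEmbedding
      have hiso : Isometry (fun x : ℝ => u * ((x : ℂ) + y * I)) := by
        apply Isometry.of_dist_eq
        intro x x'
        rw [Complex.dist_eq, ← mul_sub, norm_mul, hu, one_mul, Real.dist_eq]
        rw [show ((x : ℂ) + y * I) - ((x' : ℂ) + y * I) = ((x - x' : ℝ) : ℂ) by push_cast; ring]
        exact Complex.norm_real _
      exact hiso.isClosedEmbedding
  apply integral_mono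
  · have hfun : (fun x : ℝ => deriv (fun x : ℝ => f (u * ((x : ℂ) + y * I))) x ^ 2)
        = fun x : ℝ => (fun z => (fderiv ℝ f z u) ^ 2) (u * ((x : ℂ) + y * I)) := by
      funext x; rw [hder x]
    rw [hfun]
    apply hcomp (fun z => (fderiv ℝ f z u) ^ 2)
    · exact (hcd.clm_apply continuous_const).pow 2
    · have h0 : HasCompactSupport (fderiv ℝ f) := hf2.fderiv (𝕜 := ℝ)
      have h1 : (fun t : ℂ →L[ℝ] ℝ => (t u) ^ 2) 0 = 0 := by
        show ((0 : ℂ →L[ℝ] ℝ) u) ^ 2 = 0
        rw [ContinuousLinearMap.zero_apply]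
        norm_num
      exact HasCompactSupport.comp_left (g := fun t : ℂ →L[ℝ] ℝ => (t u) ^ 2) h0 h1
  · exact hcomp (fun z => ‖fderiv ℝ f z‖ ^ 2) hF2 hS2
  · intro x
    show deriv (fun x : ℝ => f (u * ((x : ℂ) + y * I))) x ^ 2
      ≤ ‖fderiv ℝ f (u * ((x : ℂ) + y * I))‖ ^ 2
    rw [hder x]
    have h1 : |fderiv ℝ f (u * ((x : ℂ) + y * I)) u| ≤ ‖fderiv ℝ f (u * ((x : ℂ) + y * I))‖ := by
      have := (fderiv ℝ f (u * ((x : ℂ) + y * I))).le_opNorm u
      rwa [hu, mul_one, Real.norm_eq_abs] at this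
    rw [← sq_abs (fderiv ℝ f (u * ((x : ℂ) + y * I)) u)]
    exact pow_le_pow_left₀ (abs_nonneg _) h1 2

theorem mass_pos (f : ℂ → ℝ) (hf1 : ContDiff ℝ 1 f) (hf2 : HasCompactSupport f) (hne : f ≠ 0) :
    0 < mass f := by
  unfold mass
  have hc : Continuous (fun z => f z ^ 2) := hf1.continuous.pow 2
  obtain ⟨z, hz⟩ := Function.ne_iff.mp hne
  exact hc.integral_pos_of_hasCompactSupport_nonneg_nonzero
    (hf2.comp_left (g := fun t : ℝ => t ^ 2) (by simp)) (fun z => sq_nonneg _) (x := z)
    (pow_ne_zero 2 hz)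

theorem t_SL (h : S_PB) : S_SL := by
  intro Ω W c u hO hB hN hW hu hs
  rw [ev_eq_mm]
  apply le_mm (h Ω hO hB hN 1 le_rfl).1.1
  intro r V hV hVf
  obtain ⟨v, hv, -⟩ := finrank_eq_one_iff'.mp hV
  obtain ⟨hv1, hv2⟩ := hVf v.1 v.2
  have hne : v.1 ≠ 0 := fun h0 => hv (Subtype.ext h0)
  have hpos := mass_pos v.1 hv1.1 hv1.2.1 hne
  have hst := strip Ω W c u hW hu hs v.1 hv1
  rw [div_le_iff₀ (by positivity)]
  have h1 : mass v.1 ≤ (r * W ^ 2) * mass v.1 := by
    calc mass v.1 ≤ W ^ 2 * dir v.1 := hst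
      _ ≤ W ^ 2 * (r * mass v.1) := mul_le_mul_of_nonneg_left hv2 (sq_nonneg W)
      _ = (r * W ^ 2) * mass v.1 := by ring
  exact le_of_mul_le_mul_right (by linarith) hpos

end Pool.Agent.W616.GP
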